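import Mathlib

/-!
# Project SL: 2-adic necessity, the core (helper407)
-/

set_option autoImplicit false

namespace Pool.Agent.N407.SL

/-- the inclusion -/
noncomputable def φ : ℤ_[2] →+* ℚ_[2] := PadicInt.Coe.ringHom (p := 2)

lemma norm_φ (e : ℤ_[2]) : ‖φ e‖ = ‖e‖ := rfl

lemma unit_add {a : ℤ_[2]} (c : ℤ_[2]) (ha : ‖a‖ = 1) : ‖a + 2 * c‖ = 1 := by
  have h1 : ‖(2 : ℤ_[2]) * c‖ < 1 := by
    rw [norm_mul]
    have h2 : ‖(2 : ℤ_[2])‖ = (2 : ℝ)⁻¹ := by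
      have := PadicInt.norm_p (p := 2)
      simpa using this
    have h3 := PadicInt.norm_le_one c
    rw [h2]
    linarith
  have h4 : ‖a‖ ≠ ‖(2 : ℤ_[2]) * c‖ := by rw [ha]; exact h1.ne'
  rw [PadicInt.norm_add_eq_max_of_ne h4, ha, max_eq_left h1.le]

lemma norm_odd {n : ℤ} (h : ¬ (2 : ℤ) ∣ n) : ‖((n : ℤ) : ℤ_[2])‖ = 1 := by
  have h1 := PadicInt.norm_int_lt_one_iff_dvd (p := 2) n
  have h2 := PadicInt.norm_le_one ((n : ℤ) : ℤ_[2])
  have h3 : ¬ ‖((n : ℤ) : ℤ_[2])‖ < 1 := fun h' => h (by exact_mod_cast h1.1 h')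
  push Not at h3
  exact le_antisymm h2 h3

/-- the valuation of a square is even -/
lemma sq_ne {W : ℚ_[2]} {e : ℤ_[2]} (he : ‖e‖ = 1) (m : ℕ)
    (h : W ^ 2 = 2 ^ (2 * m + 1) * φ e) : False := by
  have he' : ‖φ e‖ = 1 := he
  have he0 : φ e ≠ 0 := by
    intro h0
    rw [h0, norm_zero] at he'
    norm_num at he'
  have hW : W ≠ 0 := by
    rintro rfl
    rw [zero_pow two_ne_zero] at h
    exact (mul_ne_zero (pow_ne_zero _ two_ne_zero) he0) h.symm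
  have h1 := congrArg norm h
  have h2 : ‖(2 : ℚ_[2])‖ = (2 : ℝ)⁻¹ := by
    have := Padic.norm_p (p := 2)
    simpa using this
  rw [norm_pow, norm_mul, norm_pow, he', mul_one, h2, Padic.norm_eq_zpow_neg_valuation hW] at h1
  have h3 : ((2 : ℝ) ^ (-(2 * W.valuation))) = (2 : ℝ) ^ (-((2 * m + 1 : ℕ) : ℤ)) := by
    rw [zpow_neg, zpow_neg, zpow_natCast, ← inv_pow, ← h1]
    push_cast
    rw [← zpow_natCast, ← zpow_mul, ← zpow_neg]
    congr 1
    push_cast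
    ring
  have h4 := zpow_right_injective₀ (by norm_num : (0 : ℝ) < 2) (by norm_num : (2 : ℝ) ≠ 1) h3
  push_cast at h4
  omega

lemma zmod8_a : ∀ x D d y : ZMod 8, x ^ 2 = 1 → (D = 1 ∨ D = 5) → d ^ 2 = 1 →
    y ^ 2 ≠ d * (2 * d ^ 2 * x ^ 4 + 21 * D * d * x ^ 2 + 56 * D ^ 2) := by
  decide

lemma zmod8_b : ∀ x D d y : ZMod 8, x ^ 2 = 1 → (D = 1 ∨ D = 5) → d ^ 2 = 1 →
    y ^ 2 ≠ d * (8 * d ^ 2 * x ^ 4 + 21 * D * d * x ^ 2 + 14 * D ^ 2) := by
  decide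

lemma zmod8_unit : ∀ x y : ZMod 8, x * y = 1 → x ^ 2 = 1 := by
  decide

lemma unit_sq {u : ℤ_[2]} (hu : ‖u‖ = 1) : (PadicInt.toZModPow 3 u : ZMod (2 ^ 3)) ^ 2 = 1 := by
  obtain ⟨v, hv⟩ := (PadicInt.isUnit_iff.2 hu).exists_right_inv
  have h1 := congrArg (PadicInt.toZModPow (p := 2) 3) hv
  rw [map_mul, map_one] at h1
  exact zmod8_unit _ _ h1

/-- a square root of a 2-adic integer is a 2-adic integer -/
lemma root_int {W : ℚ_[2]} {e : ℤ_[2]} (h : W ^ 2 = φ e) : ∃ y : ℤ_[2], y ^ 2 = e := by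
  have h1 : ‖W‖ ≤ 1 := by
    by_contra hcon
    push Not at hcon
    have h2 := congrArg norm h
    rw [norm_pow] at h2
    have h3 : ‖φ e‖ ≤ 1 := PadicInt.norm_le_one e
    nlinarith
  obtain ⟨y, hy⟩ : ∃ y : ℤ_[2], φ y = W := ⟨⟨W, h1⟩, rfl⟩
  have hinj : Function.Injective φ := fun a b hab => PadicInt.ext hab
  exact ⟨y, hinj (by rw [map_pow, hy, h])⟩

lemma exists_u {r : ℚ_[2]} (hr : r ≠ 0) : ∃ (k : ℤ) (u : ℤ_[2]), ‖u‖ = 1 ∧
    r = 2 ^ k * φ u := by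
  have h1 : ‖r * (2 : ℚ_[2]) ^ (-r.valuation)‖ = 1 := by
    rw [norm_mul, norm_zpow, Padic.norm_eq_zpow_neg_valuation hr]
    have h2 : ‖(2 : ℚ_[2])‖ = (2 : ℝ)⁻¹ := by
      have := Padic.norm_p (p := 2)
      simpa using this
    rw [h2, inv_zpow', neg_neg]
    push_cast
    rw [← zpow_add₀ (by norm_num : (2 : ℝ) ≠ 0), neg_add_cancel, zpow_zero]
  refine ⟨r.valuation, ⟨r * (2 : ℚ_[2]) ^ (-r.valuation), h1.le⟩, h1, ?_⟩
  show r = 2 ^ r.valuation * (r * (2 : ℚ_[2]) ^ (-r.valuation))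
  rw [mul_comm r, ← mul_assoc, ← zpow_add₀ (two_ne_zero), add_neg_cancel, zpow_zero, one_mul]

theorem n2_core (D d : ℤ) (hD : D % 4 = 1) (hd : Squarefree d)
    (h : IsSquare (d : ℚ_[2]) ∨ IsSquare (7 * (d : ℚ_[2])) ∨
      ∃ X Y r : ℚ_[2], X ≠ 0 ∧ Y ^ 2 = X ^ 3 - 2 * ((-42 * D : ℤ) : ℚ_[2]) * X ^ 2 +
        (((-42 * D : ℤ) : ℚ_[2]) ^ 2 - 4 * ((-7 * D ^ 2 : ℤ) : ℚ_[2])) * X ∧
        X = (d : ℚ_[2]) * r ^ 2) : ¬ (2 : ℤ) ∣ d := by
  rintro ⟨d', rfl⟩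
  have hd' : ¬ (2 : ℤ) ∣ d' := by
    rintro ⟨c, rfl⟩
    have := hd 2 ⟨c, by ring⟩
    rw [Int.isUnit_iff] at this
    omega
  have hu' := norm_odd hd'
  rcases h with ⟨s, hs⟩ | ⟨s, hs⟩ | ⟨X, Y, r, hX, hY, hXr⟩
  · refine sq_ne (W := s) hu' 0 ?_
    push_cast at hs
    simp only [map_mul, map_add, map_pow, map_intCast, map_ofNat]
    linear_combination -hs
  · have h7 : ‖((7 * d' : ℤ) : ℤ_[2])‖ = 1 := norm_odd (by
      intro h
      rcases (Int.prime_two.dvd_mul.1 h) with h | h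
      · norm_num at h
      · exact hd' h)
    refine sq_ne (W := s) h7 0 ?_
    push_cast at hs
    simp only [map_mul, map_add, map_pow, map_intCast, map_ofNat]
    push_cast
    linear_combination -hs
  · have hr : r ≠ 0 := by
      rintro rfl
      apply hX
      rw [hXr]
      ring
    have hD2 : ¬ (2 : ℤ) ∣ D := by omega
    have hDD : ((D : ℤ) : ZMod 8) = 1 ∨ ((D : ℤ) : ZMod 8) = 5 := by
      have h1 : D % 8 = 1 ∨ D % 8 = 5 := by omega
      rcases h1 with h1 | h1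
      · left
        have : ((D : ℤ) : ZMod 8) = ((1 : ℤ) : ZMod 8) :=
          (ZMod.intCast_eq_intCast_iff' _ _ 8).2 (by simpa using h1)
        simpa using this
      · right
        have : ((D : ℤ) : ZMod 8) = ((5 : ℤ) : ZMod 8) :=
          (ZMod.intCast_eq_intCast_iff' _ _ 8).2 (by simpa using h1)
        simpa using this
    have hdu : ((d' : ℤ) : ZMod 8) ^ 2 = 1 := by
      have := unit_sq hu'
      rw [map_intCast] at this
      exact this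
    obtain ⟨k, u, hu, hru⟩ := exists_u hr
    -- the basic equation
    have hW : (Y / r) ^ 2 = 8 * (d' : ℚ_[2]) * ((d' : ℚ_[2]) ^ 2 * r ^ 4 +
        42 * D * d' * r ^ 2 + 448 * D ^ 2) := by
      rw [div_pow, div_eq_iff (pow_ne_zero 2 hr), hY, hXr]
      push_cast
      ring
    set W := Y / r with hWdef
    have hu4 : ‖((d' : ℤ) : ℤ_[2]) ^ 2 * u ^ 4‖ = 1 := by
      rw [norm_mul, norm_pow, norm_pow, hu, hu']
      norm_num
    rcases le_or_gt k 0 with hk | hk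
    · -- `k ≤ 0`
      obtain ⟨n, hn⟩ : ∃ n : ℕ, k = -(n : ℤ) := ⟨k.natAbs, by omega⟩
      have hru' : r * 2 ^ n = φ u := by
        rw [hru, hn, zpow_neg, zpow_natCast]
        field_simp
      have hE : ‖((d' : ℤ) : ℤ_[2]) * (((d' : ℤ) : ℤ_[2]) ^ 2 * u ^ 4 + 2 *
          (21 * (D : ℤ_[2]) * (d' : ℤ_[2]) * u ^ 2 * 4 ^ n + 224 * (D : ℤ_[2]) ^ 2 * 16 ^ n))‖ = 1 := by
        rw [norm_mul, hu', one_mul]
        exact unit_add _ hu4
      refine sq_ne (W := W * 4 ^ n) hE 1 ?_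
      simp only [map_mul, map_add, map_pow, map_intCast, map_ofNat]
      rw [mul_pow, hW, ← hru']
      have e4 : ((4 : ℚ_[2]) ^ n) ^ 2 = 2 ^ n * 2 ^ n * 2 ^ n * 2 ^ n := by
        rw [show (4 : ℚ_[2]) = 2 * 2 by norm_num, mul_pow]; ring
      have e5 : (4 : ℚ_[2]) ^ n = 2 ^ n * 2 ^ n := by
        rw [show (4 : ℚ_[2]) = 2 * 2 by norm_num, mul_pow]
      have e6 : (16 : ℚ_[2]) ^ n = 2 ^ n * 2 ^ n * 2 ^ n * 2 ^ n := by
        rw [show (16 : ℚ_[2]) = 2 * 2 * 2 * 2 by norm_num, mul_pow, mul_pow, mul_pow]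
      rw [e4, e5, e6]
      ring
    rcases eq_or_ne k 1 with hk1 | hk1
    · -- `k = 1`
      have hru' : r = 2 * φ u := by rw [hru, hk1, zpow_one]
      obtain ⟨y, hy⟩ := root_int (W := W / 8) (e := (d' : ℤ_[2]) * (2 * (d' : ℤ_[2]) ^ 2 * u ^ 4 +
        21 * (D : ℤ_[2]) * (d' : ℤ_[2]) * u ^ 2 + 56 * (D : ℤ_[2]) ^ 2)) (by
          rw [div_pow, hW, hru']
          simp only [map_mul, map_add, map_pow, map_intCast, map_ofNat]
          ring)
      have h1 := congrArg (PadicInt.toZModPow (p := 2) 3) hy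
      simp only [map_mul, map_add, map_pow, map_intCast, map_ofNat] at h1
      exact zmod8_a _ _ _ _ (unit_sq hu) hDD hdu h1
    rcases eq_or_ne k 2 with hk2 | hk2
    · -- `k = 2`
      have hru' : r = 4 * φ u := by
        rw [hru, hk2]
        norm_num
      obtain ⟨y, hy⟩ := root_int (W := W / 16) (e := (d' : ℤ_[2]) * (8 * (d' : ℤ_[2]) ^ 2 * u ^ 4 +
        21 * (D : ℤ_[2]) * (d' : ℤ_[2]) * u ^ 2 + 14 * (D : ℤ_[2]) ^ 2)) (by
          rw [div_pow, hW, hru']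
          simp only [map_mul, map_add, map_pow, map_intCast, map_ofNat]
          ring)
      have h1 := congrArg (PadicInt.toZModPow (p := 2) 3) hy
      simp only [map_mul, map_add, map_pow, map_intCast, map_ofNat] at h1
      exact zmod8_b _ _ _ _ (unit_sq hu) hDD hdu h1
    · -- `k ≥ 3`
      obtain ⟨n, hn⟩ : ∃ n : ℕ, k = (n : ℤ) + 3 := ⟨(k - 3).toNat, by omega⟩
      have hru' : r = 8 * φ ((2 : ℤ_[2]) ^ n * u) := by
        rw [hru, hn, zpow_add₀ (two_ne_zero)]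
        simp only [map_mul, map_add, map_pow, map_intCast, map_ofNat]
        norm_num
        ring
      set s : ℤ_[2] := (2 : ℤ_[2]) ^ n * u with hs
      have hE : ‖((d' : ℤ) : ℤ_[2]) * (((7 * D ^ 2 : ℤ) : ℤ_[2]) + 2 *
          (32 * (d' : ℤ_[2]) ^ 2 * s ^ 4 + 21 * (D : ℤ_[2]) * (d' : ℤ_[2]) * s ^ 2))‖ = 1 := by
        rw [norm_mul, hu', one_mul]
        refine unit_add _ (norm_odd ?_)
        intro h
        rcases (Int.prime_two.dvd_mul.1 h) with h | h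
        · norm_num at h
        · exact hD2 (Int.prime_two.dvd_of_dvd_pow h)
      refine sq_ne (W := W) hE 4 ?_
      rw [hW, hru']
      simp only [map_mul, map_add, map_pow, map_intCast, map_ofNat]
      push_cast
      ring

end Pool.Agent.N407.SL
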